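import Mathlib
import Pool.Agent.H13.Higgs

set_option autoImplicit false

namespace Pool.Agent.Results.MP_3b1797_co.Regular

variable {P : Type} [PartialOrder P]

/-- `K` meets every maximal chain. -/
def IsCutset (K : Set P) : Prop := ∀ C : Set P, IsMaxChain (· ≤ ·) C → (K ∩ C).Nonempty

def IsMinCutset (K : Set P) : Prop := IsCutset K ∧ ∀ x ∈ K, ¬ IsCutset (K \ {x})

def IsRegular (P : Type) [PartialOrder P] : Prop :=
  ∀ C : Set P, IsChain (· ≤ ·) C → C.Nonempty →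
    (∃ s, IsLUB C s ∧ ∀ x, x < s → ∃ c ∈ C, x < c) ∧
    (∃ i, IsGLB C i ∧ ∀ x, i < x → ∃ c ∈ C, c < x)

def Incomp (a b : P) : Prop := ¬ a ≤ b ∧ ¬ b ≤ a

def ContainsN (P : Type) [PartialOrder P] : Prop :=
  ∃ a b c d : P, a < c ∧ b ⋖ c ∧ b < d ∧ Incomp a b ∧ Incomp a d ∧ Incomp c d

open Pool.Agent.H13.Higgs in
theorem result : ∃ (P : Type) (_ : PartialOrder P), IsRegular P ∧
    (∀ K : Set P, IsMinCutset K → IsAntichain (· ≤ ·) K) ∧ ContainsN P := by
  refine ⟨X, inferInstance, fun C hC hne => ⟨sup_ok C hC hne, inf_ok C hC hne⟩,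
    fun K hK => ?_, X.low 1 0, X.low 1 1, X.low 0 0, X.low 0 2, ?_, cov, ?_, ?_, ?_, ?_⟩
  · rcases only (K := K) hK with h | h <;> rw [h] <;> exact IsAntichain.singleton
  all_goals simp [Incomp, lt_def, le_def, le, L]

end Pool.Agent.Results.MP_3b1797_co.Regular
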